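import Pool.Agent.Helper36.ST.Defs

/-!
# Twisting by a linear character: basic facts
-/

set_option autoImplicit false
open scoped BigOperators MonoidAlgebra
open Classical

namespace Pool.Agent.Helper44.ST

open Pool.Agent.Helper36.ST Pool.Agent.Helper36.NB Pool.Agent.Helper44.S3 Pool.Agent.Helper36.NC

section T1

variable {R : Type} [CommRing R] {A B : Type} [Group A] [Group B] [Fintype A] (W : Tw R A B)

theorem tw_coeff (y : MonoidAlgebra R B) (a : A) :
    (tw W y).coeff a = W.t * ((W.lam a)⁻¹ : Rˣ) * y.coeff (W.π a) := by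
  unfold tw
  rw [MonoidAlgebra.coeff_sum, Finsupp.finsetSum_apply]
  have h : ∀ c : A, ((W.t * ((W.lam c)⁻¹ : Rˣ) * y.coeff (W.π c)) • el R c).coeff a =
      if c = a then W.t * ((W.lam c)⁻¹ : Rˣ) * y.coeff (W.π c) else 0 := by
    intro c
    unfold el
    rw [MonoidAlgebra.coeff_smul, Finsupp.smul_apply, MonoidAlgebra.coeff_single,
      Finsupp.single_apply, smul_eq_mul, mul_ite, mul_one, mul_zero]
  rw [Finset.sum_congr rfl fun c _ => h c, Finset.sum_ite_eq' Finset.univ a]
  simp

theorem tw_add (x y : MonoidAlgebra R B) : tw W (x + y) = tw W x + tw W y := by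
  ext a
  rw [MonoidAlgebra.coeff_add, Finsupp.add_apply, tw_coeff, tw_coeff, tw_coeff,
    MonoidAlgebra.coeff_add, Finsupp.add_apply, mul_add]

theorem tw_smul (c : R) (y : MonoidAlgebra R B) : tw W (c • y) = c • tw W y := by
  ext a
  rw [MonoidAlgebra.coeff_smul, Finsupp.smul_apply, tw_coeff, tw_coeff,
    MonoidAlgebra.coeff_smul, Finsupp.smul_apply, smul_eq_mul, smul_eq_mul]
  ring

theorem tw_zero : tw W (0 : MonoidAlgebra R B) = 0 := by
  have h := tw_smul W 0 0
  rwa [zero_smul, zero_smul] at h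

theorem tw_el_mul (a : A) (y : MonoidAlgebra R B) :
    el R a * tw W y = (W.lam a : R) • tw W (el R (W.π a) * y) := by
  ext c
  have e1 : W.lam (a⁻¹ * c) = (W.lam a)⁻¹ * W.lam c := by rw [map_mul, map_inv]
  have e2 : W.π (a⁻¹ * c) = (W.π a)⁻¹ * W.π c := by rw [map_mul, map_inv]
  rw [MonoidAlgebra.coeff_smul, Finsupp.smul_apply, tw_coeff, smul_eq_mul, el_mul_coeff,
    el_mul_coeff, tw_coeff, e1, e2, mul_inv_rev, inv_inv, Units.val_mul]
  ring

theorem tw_mul_el (a : A) (y : MonoidAlgebra R B) :
    tw W y * el R a = (W.lam a : R) • tw W (y * el R (W.π a)) := by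
  ext c
  have e1 : W.lam (c * a⁻¹) = W.lam c * (W.lam a)⁻¹ := by rw [map_mul, map_inv]
  have e2 : W.π (c * a⁻¹) = W.π c * (W.π a)⁻¹ := by rw [map_mul, map_inv]
  rw [MonoidAlgebra.coeff_smul, Finsupp.smul_apply, tw_coeff, smul_eq_mul, mul_el_coeff,
    mul_el_coeff, tw_coeff, e1, e2, mul_inv_rev, inv_inv, Units.val_mul]
  ring

theorem tw_cj (a : A) (y : MonoidAlgebra R B) : cj a (tw W y) = tw W (cj (W.π a) y) := by
  ext c
  have e1 : W.lam (a⁻¹ * c * a) = W.lam c := by
    rw [map_mul, map_mul, map_inv, mul_comm (W.lam a)⁻¹, mul_assoc, inv_mul_cancel, mul_one]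
  have e2 : W.π (a⁻¹ * c * a) = (W.π a)⁻¹ * W.π c * W.π a := by
    rw [map_mul, map_mul, map_inv]
  rw [cj_coeff, tw_coeff, tw_coeff, cj_coeff, e1, e2]

/-- The projection `R[A] → R[B]`. -/
noncomputable def prT : MonoidAlgebra R A →ₐ[R] MonoidAlgebra R B :=
  MonoidAlgebra.lift R (MonoidAlgebra R B) A
    { toFun := fun x => MonoidAlgebra.single (W.π x) (W.lam x : R)
      map_one' := by simp [MonoidAlgebra.one_def]
      map_mul' := fun x y => by simp [MonoidAlgebra.single_mul_single] }

omit [Fintype A] in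
theorem prT_single (x : A) (r : R) :
    prT W (MonoidAlgebra.single x r) = MonoidAlgebra.single (W.π x) (r * (W.lam x : R)) := by
  simp [prT, MonoidAlgebra.lift_single]

theorem mul_tw (x : MonoidAlgebra R A) (y : MonoidAlgebra R B) :
    x * tw W y = tw W (prT W x * y) := by
  induction x using MonoidAlgebra.induction_linear with
  | zero => rw [map_zero, zero_mul, zero_mul, tw_zero]
  | add a b ha hb => rw [map_add, add_mul, ha, hb, add_mul, tw_add]
  | single a r =>
    rw [prT_single]
    have h1 : (MonoidAlgebra.single a r : MonoidAlgebra R A) = r • el R a := by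
      unfold el
      rw [MonoidAlgebra.smul_single, smul_eq_mul, mul_one]
    have h2 : (MonoidAlgebra.single (W.π a) (r * (W.lam a : R)) : MonoidAlgebra R B) =
        (r * (W.lam a : R)) • el R (W.π a) := by
      unfold el
      rw [MonoidAlgebra.smul_single, smul_eq_mul, mul_one]
    rw [h1, h2, smul_mul_assoc, tw_el_mul, smul_mul_assoc, tw_smul, smul_smul]

theorem tw_mul' (x : MonoidAlgebra R A) (y : MonoidAlgebra R B) :
    tw W y * x = tw W (y * prT W x) := by
  induction x using MonoidAlgebra.induction_linear with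
  | zero => rw [map_zero, mul_zero, mul_zero, tw_zero]
  | add a b ha hb => rw [map_add, mul_add, ha, hb, mul_add, tw_add]
  | single a r =>
    rw [prT_single]
    have h1 : (MonoidAlgebra.single a r : MonoidAlgebra R A) = r • el R a := by
      unfold el
      rw [MonoidAlgebra.smul_single, smul_eq_mul, mul_one]
    have h2 : (MonoidAlgebra.single (W.π a) (r * (W.lam a : R)) : MonoidAlgebra R B) =
        (r * (W.lam a : R)) • el R (W.π a) := by
      unfold el
      rw [MonoidAlgebra.smul_single, smul_eq_mul, mul_one]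
    rw [h1, h2, mul_smul_comm, tw_mul_el, mul_smul_comm, tw_smul, smul_smul]

/-- The fibres of `π` have three elements. -/
theorem card_fib (b : B) : (Finset.univ.filter (fun a : A => W.π a = b)).card = 3 := by
  obtain ⟨a0, rfl⟩ := W.surj b
  have h := W.card
  rw [Nat.card_eq_fintype_card, Fintype.card_subtype] at h
  rw [← h]
  refine Finset.card_bij (fun a _ => a0⁻¹ * a) ?_ ?_ ?_
  · intro a ha
    simp only [Finset.mem_filter, Finset.mem_univ, true_and] at ha ⊢
    rw [MonoidHom.mem_ker, map_mul, map_inv, ha, inv_mul_cancel]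
  · intro a _ a' _ h
    exact mul_left_cancel h
  · intro z hz
    simp only [Finset.mem_filter, Finset.mem_univ, true_and] at hz
    rw [MonoidHom.mem_ker] at hz
    refine ⟨a0 * z, ?_, by group⟩
    simp only [Finset.mem_filter, Finset.mem_univ, true_and]
    rw [map_mul, hz, mul_one]

theorem prT_tw (y : MonoidAlgebra R B) : prT W (tw W y) = y := by
  have h1 : prT W (tw W y) = ∑ a : A, (W.t * y.coeff (W.π a)) • el R (W.π a) := by
    unfold tw
    rw [map_sum]
    refine Finset.sum_congr rfl fun a _ => ?_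
    rw [map_smul]
    have h : prT W (el R a) = (W.lam a : R) • el R (W.π a) := by
      unfold el
      rw [prT_single, MonoidAlgebra.smul_single, smul_eq_mul, mul_one, one_mul]
    rw [h, smul_smul]
    congr 1
    calc W.t * ((W.lam a)⁻¹ : Rˣ) * y.coeff (W.π a) * (W.lam a : R)
        = W.t * y.coeff (W.π a) * (((W.lam a)⁻¹ : Rˣ) * (W.lam a : R)) := by ring
      _ = W.t * y.coeff (W.π a) := by rw [Units.inv_mul, mul_one]
  rw [h1]
  ext b
  rw [MonoidAlgebra.coeff_sum, Finsupp.finsetSum_apply]
  have h2 : ∀ a : A, ((W.t * y.coeff (W.π a)) • el R (W.π a)).coeff b =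
      if W.π a = b then W.t * y.coeff b else 0 := by
    intro a
    unfold el
    rw [MonoidAlgebra.coeff_smul, Finsupp.smul_apply, MonoidAlgebra.coeff_single,
      Finsupp.single_apply, smul_eq_mul, mul_ite, mul_one, mul_zero]
    by_cases h : W.π a = b
    · rw [if_pos h, if_pos h, h]
    · rw [if_neg h, if_neg h]
  rw [Finset.sum_congr rfl fun a _ => h2 a, ← Finset.sum_filter, Finset.sum_const, card_fib]
  have h3 := W.t3
  calc 3 • (W.t * y.coeff b) = (3 * W.t) * y.coeff b := by rw [nsmul_eq_mul]; push_cast; ring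
    _ = y.coeff b := by rw [h3, one_mul]

theorem tw_mul (x y : MonoidAlgebra R B) : tw W (x * y) = tw W x * tw W y := by
  rw [mul_tw, prT_tw]

theorem tw_injective : Function.Injective (tw W) := fun x y h => by
  rw [← prT_tw W x, h, prT_tw]

theorem prT_surjective : Function.Surjective (prT W) := fun y => ⟨tw W y, prT_tw W y⟩

theorem tw_range (x : MonoidAlgebra R A) (hx : x * tw W 1 = x) : ∃ y, tw W y = x :=
  ⟨prT W x, by rw [← hx, mul_tw, mul_one, prT_tw]⟩

theorem sum_ker : ∑ a ∈ Finset.univ.filter (fun a : A => W.π a = 1), (W.lam a : R) ^ 2 = 0 := by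
  -- a nontrivial element of the kernel
  have hc := W.card
  obtain ⟨z, hz, hz1⟩ : ∃ z ∈ W.π.ker, z ≠ 1 := by
    by_contra hcon
    push Not at hcon
    have h : W.π.ker = ⊥ := by
      rw [eq_bot_iff]
      intro z hz
      exact Subgroup.mem_bot.2 (hcon z hz)
    rw [h, Subgroup.card_bot] at hc
    omega
  have hsum := W.sum z hz hz1
  have hzk := MonoidHom.mem_ker.1 hz
  set w : R := (W.lam z : R) with hw
  have hw3 : w ^ 3 = 1 := by
    have : w ^ 3 - 1 = (w - 1) * (1 + w + w ^ 2) := by ring
    rw [hsum, mul_zero] at this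
    exact sub_eq_zero.1 this
  set s := ∑ a ∈ Finset.univ.filter (fun a : A => W.π a = 1), (W.lam a : R) ^ 2 with hs
  have h1 : s = w ^ 2 * s := by
    rw [hs, Finset.mul_sum]
    refine Finset.sum_bij' (fun a _ => z⁻¹ * a) (fun a _ => z * a) ?_ ?_ ?_ ?_ ?_
    · intro a ha
      simp only [Finset.mem_filter, Finset.mem_univ, true_and] at ha ⊢
      rw [map_mul, map_inv, hzk, ha, inv_one, mul_one]
    · intro a ha
      simp only [Finset.mem_filter, Finset.mem_univ, true_and] at ha ⊢
      rw [map_mul, hzk, ha, mul_one]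
    · intro a _
      group
    · intro a _
      group
    · intro a _
      rw [hw, ← mul_pow, ← Units.val_mul, ← map_mul]
      congr 4
      group
  have h2 : (1 - w ^ 2) * s = 0 := by
    rw [sub_mul, one_mul, ← h1, sub_self]
  have h3 : W.t * (1 - w) * ((1 - w ^ 2) * s) = s := by
    have h4 : (1 - w) * (1 - w ^ 2) = 3 := by
      have : (1 - w) * (1 - w ^ 2) = 2 + w ^ 3 - (1 + w + w ^ 2) := by ring
      rw [this, hw3, hsum]
      ring
    calc W.t * (1 - w) * ((1 - w ^ 2) * s) = W.t * ((1 - w) * (1 - w ^ 2)) * s := by ring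
      _ = s := by rw [h4, mul_comm W.t 3, W.t3, one_mul]
  rw [← h3, h2, mul_zero]

theorem tw_orth (x y : MonoidAlgebra R B) : tw W x * inv' (tw W y) = 0 := by
  have h1 : inv' (tw W y) = inv' (tw W 1) * inv' (tw W y) := by
    rw [← inv'_mul, ← tw_mul, mul_one]
  have h2 : tw W x * inv' (tw W 1) = 0 := by
    rw [tw_mul']
    have h3 : prT W (inv' (tw W 1)) = 0 := by
      have h4 : inv' (tw W (1 : MonoidAlgebra R B)) =
          ∑ a ∈ Finset.univ.filter (fun a : A => W.π a = 1), (W.t * (W.lam a : R)) • el R a := by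
        ext c
        rw [inv'_coeff, tw_coeff, MonoidAlgebra.coeff_sum, Finsupp.finsetSum_apply]
        have h5 : ∀ a : A, ((W.t * (W.lam a : R)) • el R a).coeff c =
            if a = c then W.t * (W.lam a : R) else 0 := by
          intro a
          unfold el
          rw [MonoidAlgebra.coeff_smul, Finsupp.smul_apply, MonoidAlgebra.coeff_single,
            Finsupp.single_apply, smul_eq_mul, mul_ite, mul_one, mul_zero]
        rw [Finset.sum_congr rfl fun a _ => h5 a, Finset.sum_ite_eq']
        simp only [Finset.mem_filter, Finset.mem_univ, true_and]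
        rw [MonoidAlgebra.one_def, MonoidAlgebra.coeff_single, Finsupp.single_apply, map_inv,
          map_inv, inv_inv]
        by_cases h6 : W.π c = 1
        · rw [if_pos h6, h6, inv_one, if_pos rfl, mul_one]
        · rw [if_neg h6, if_neg, mul_zero]
          intro h7
          exact h6 (inv_eq_one.1 h7.symm)
      rw [h4, map_sum]
      have h5 : ∀ a ∈ Finset.univ.filter (fun a : A => W.π a = 1),
          prT W ((W.t * (W.lam a : R)) • el R a) = (W.t * (W.lam a : R) ^ 2) • (1 : MonoidAlgebra R B) := by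
        intro a ha
        simp only [Finset.mem_filter, Finset.mem_univ, true_and] at ha
        unfold el
        rw [map_smul, prT_single, ha, one_mul, MonoidAlgebra.smul_single, MonoidAlgebra.one_def,
          MonoidAlgebra.smul_single, smul_eq_mul, smul_eq_mul, mul_one]
        congr 1
        ring
      rw [Finset.sum_congr rfl h5, ← Finset.sum_smul, ← Finset.mul_sum, sum_ker, mul_zero,
        zero_smul]
    rw [h3, mul_zero, tw_zero]
  rw [h1, ← mul_assoc, h2, zero_mul]

theorem tw_block {y : MonoidAlgebra R B} (hy : IsBlock y) : IsBlock (tw W y) := by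
  obtain ⟨h0, h1, h2, h3⟩ := hy
  refine ⟨fun h => h0 ?_, by rw [← tw_mul, h1], fun a => by rw [mul_tw, tw_mul', h2], ?_⟩
  · rw [← prT_tw W y, h, map_zero]
  · intro f hf hfc
    have h4 := h3 (prT W f) (by rw [← map_mul, hf]) (fun a => by
      obtain ⟨a', rfl⟩ := prT_surjective W a
      rw [← map_mul, ← map_mul, hfc])
    rw [mul_tw]
    rcases h4 with h | h
    · left; rw [h, tw_zero]
    · right; rw [h]

theorem tw_pow (b : MonoidAlgebra R B) (m : ℕ) : tw W b ^ (m + 1) = tw W (b ^ (m + 1)) := by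
  induction m with
  | zero => rw [zero_add, pow_one, pow_one]
  | succ m ih => rw [pow_succ, ih, ← tw_mul, ← pow_succ]

theorem tw_isNilpotent {b : MonoidAlgebra R B} (h : IsNilpotent b) : IsNilpotent (tw W b) := by
  obtain ⟨m, hm⟩ := h
  exact ⟨m + 1, by rw [tw_pow, pow_succ, hm, zero_mul, tw_zero]⟩

end T1

theorem toK_tw {O : ValuationSubring ℂ} {A B : Type} [Group A] [Group B] [Fintype A]
    (W : Tw O A B) (y : MonoidAlgebra O B) : toK O A (tw W y) = tw W.red (toK O B y) := by
  ext a
  rw [toK_apply, tw_coeff, tw_coeff, toK_apply, map_mul, map_mul]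
  congr 2

theorem tw_simple {k : Type} [Field k] {A B : Type} [Group A] [Group B] [Fintype A]
    (W : Tw k A B) {y : MonoidAlgebra k B} (S : SimpleQuot y) :
    ∃ S' : SimpleQuot (tw W y), S'.n = S.n :=
  ⟨{ n := S.n
     ρ := S.ρ.comp (prT W)
     pos := S.pos
     surj := S.surj.comp (prT_surjective W)
     one := by rw [AlgHom.comp_apply, prT_tw, S.one]
     nil := fun a ha => by
       rw [mul_tw]
       exact tw_isNilpotent W (S.nil _ ha) }, rfl⟩

section one

variable {k : Type} [Field k] {A B : Type} [Group A] [Group B] [Fintype A] (W : Tw k A B)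

/-- A representation on which `tw W 1` acts as the identity comes from `B`. -/
theorem untwist (y : MonoidAlgebra k B) (m : ℕ) (ρ : Representation k A (Fin m → k))
    (hρ : ρ.IsIrreducible) (h1 : ρ.asAlgebraHom (tw W y) = 1) :
    ∃ ρ' : Representation k B (Fin m → k), (∀ a, ρ a = (W.lam a : k) • ρ' (W.π a)) ∧
      ρ'.IsIrreducible ∧ ρ'.asAlgebraHom y = 1 := by
  have hE : ρ.asAlgebraHom (tw W 1) = 1 := by
    have h2 : tw W y * tw W 1 = tw W y := by rw [← tw_mul, mul_one]
    have h3 := congrArg ρ.asAlgebraHom h2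
    rwa [map_mul, h1, one_mul] at h3
  have hker : ∀ z, W.π z = 1 → ρ z = (W.lam z : k) • 1 := by
    intro z hz
    have h2 := tw_el_mul W z 1
    rw [hz, el_one, mul_one] at h2
    have h3 := congrArg ρ.asAlgebraHom h2
    rw [map_mul, map_smul, hE, mul_one] at h3
    unfold el at h3
    rwa [Representation.asAlgebraHom_single, one_smul] at h3
  have hfib : ∀ a a', W.π a = W.π a' →
      ((W.lam a)⁻¹ : kˣ).val • ρ a = ((W.lam a')⁻¹ : kˣ).val • ρ a' := by
    intro a a' h
    have h2 : W.π (a⁻¹ * a') = 1 := by rw [map_mul, map_inv, h, inv_mul_cancel]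
    have h3 : ρ a' = ρ a * ρ (a⁻¹ * a') := by
      rw [← map_mul]
      congr 1
      group
    have h4 : W.lam a' = W.lam a * W.lam (a⁻¹ * a') := by
      rw [← map_mul]
      congr 1
      group
    rw [h3, hker _ h2, h4, mul_smul_comm, mul_one, smul_smul, mul_inv_rev, mul_comm (W.lam _)⁻¹,
      Units.val_mul, mul_assoc, Units.inv_mul, mul_one]
  obtain ⟨s, hs⟩ : ∃ s : B → A, ∀ b, W.π (s b) = b := ⟨fun b => (W.surj b).choose,
    fun b => (W.surj b).choose_spec⟩
  let ρ' : Representation k B (Fin m → k) :=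
    { toFun := fun b => ((W.lam (s b))⁻¹ : kˣ).val • ρ (s b)
      map_one' := by
        rw [hfib (s 1) 1 (by rw [hs, map_one]), map_one, map_one, inv_one, Units.val_one, one_smul]
      map_mul' := fun b c => by
        rw [hfib (s (b * c)) (s b * s c) (by rw [hs, map_mul, hs, hs]), map_mul, map_mul,
          mul_inv_rev, mul_comm (W.lam (s c))⁻¹, Units.val_mul, smul_mul_smul_comm] }
  have hρ' : ∀ a, ρ a = (W.lam a : k) • ρ' (W.π a) := by
    intro a
    change ρ a = (W.lam a : k) • (((W.lam (s (W.π a)))⁻¹ : kˣ).val • ρ (s (W.π a)))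
    rw [hfib (s (W.π a)) a (hs _), smul_smul, Units.mul_inv, one_smul]
  have hal : ∀ c, ρ.asAlgebraHom c = ρ'.asAlgebraHom (prT W c) := by
    intro c
    induction c using MonoidAlgebra.induction_linear with
    | zero => simp
    | add x y hx hy => rw [map_add, map_add, map_add, hx, hy]
    | single a r =>
      rw [prT_single, Representation.asAlgebraHom_single, Representation.asAlgebraHom_single,
        hρ', smul_smul]
  refine ⟨ρ', hρ', ?_, by rw [← prT_tw W y, ← hal, h1]⟩
  have hmem : ∀ U : Subrepresentation ρ', ∃ V : Subrepresentation ρ, ∀ v, v ∈ V ↔ v ∈ U := by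
    intro U
    refine ⟨{ toSubmodule := U.toSubmodule, apply_mem_toSubmodule := ?_ }, fun v => Iff.rfl⟩
    intro g v hv
    rw [hρ']
    exact U.toSubmodule.smul_mem _ (U.apply_mem_toSubmodule (W.π g) hv)
  have hne : ∃ v : Fin m → k, v ≠ 0 := by
    by_contra hcon
    push Not at hcon
    obtain ⟨x, y, hxy⟩ := hρ.exists_pair_ne
    apply hxy
    ext v
    rw [hcon v]
    exact ⟨fun _ => y.toSubmodule.zero_mem, fun _ => x.toSubmodule.zero_mem⟩
  obtain ⟨v0, hv0⟩ := hne
  have hnt : Nontrivial (Subrepresentation ρ') := by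
    refine ⟨⟨⊥, ⊤, ?_⟩⟩
    intro h
    have h3 : v0 ∈ (⊤ : Subrepresentation ρ') := Submodule.mem_top
    rw [← h] at h3
    exact hv0 ((Submodule.mem_bot k).1 h3)
  refine { exists_pair_ne := hnt.exists_pair_ne, eq_bot_or_eq_top := ?_ }
  intro U
  obtain ⟨V, hV⟩ := hmem U
  rcases hρ.eq_bot_or_eq_top V with h3 | h3
  · left
    ext v
    refine (hV v).symm.trans ?_
    rw [h3]
    exact Iff.rfl
  · right
    ext v
    refine (hV v).symm.trans ?_
    rw [h3]
    exact Iff.rfl

theorem tw_one {y : MonoidAlgebra k B} (hy : OneSimple y) : OneSimple (tw W y) := by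
  intro m n ρ σ hρ hσ h1 h2
  obtain ⟨ρ', hρ', hρi, hρ1⟩ := untwist W y m ρ hρ h1
  obtain ⟨σ', hσ', hσi, hσ1⟩ := untwist W y n σ hσ h2
  obtain ⟨θ⟩ := hy m n ρ' σ' hρi hσi hρ1 hσ1
  let F : Representation.IntertwiningMap ρ σ :=
    LinearMap.intertwiningMap_of_isIntertwiningMap ρ σ θ.toIntertwiningMap.toLinearMap (by
      intro g v
      have h3 := LinearMap.congr_fun (θ.toIntertwiningMap.isIntertwining' (W.π g)) v
      simp only [LinearMap.comp_apply] at h3
      rw [hρ', hσ', LinearMap.smul_apply, LinearMap.smul_apply, map_smul]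
      exact congrArg ((W.lam g : k) • ·) h3)
  exact ⟨F.ofBijective θ.bijective⟩

end one

end Pool.Agent.Helper44.ST
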