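import Pool.Agent.Helper28.ST.B
import Pool.Agent.Helper44.S3.GA

/-!
# A minimal normal subgroup over `H`, and the radical of the commutator form
-/

set_option autoImplicit false
set_option linter.unusedSectionVars false
open scoped BigOperators MonoidAlgebra
open Classical

namespace Pool.Agent.Helper44.ST

open Pool.Agent.Helper36.ST Pool.Agent.Helper36.NB Pool.Agent.Helper44.S3 Pool.Agent.Helper36.NC

theorem exists_min {G : Type} [Group G] [Finite G] {H X : Subgroup G} (hH : H.Normal)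
    (hX : X.Normal) (hHX : H ≤ X) (hne : H ≠ X) (hs : Group.IsSolvable (G ⧸ H)) :
    ∃ (N : Subgroup G) (r : ℕ), N.Normal ∧ H ≤ N ∧ N ≤ X ∧ H ≠ N ∧ r.Prime ∧
      (∀ x ∈ N, ∀ y ∈ N, x * y * x⁻¹ * y⁻¹ ∈ H) ∧ (∀ x ∈ N, x ^ r ∈ H) ∧
      (∀ L : Subgroup G, L.Normal → H ≤ L → L ≤ N → L = H ∨ L = N) := by
  have hker : (QuotientGroup.mk' H).ker = H := QuotientGroup.ker_mk' H
  have hsurj := QuotientGroup.mk'_surjective H
  have hcm : ∀ L : Subgroup G, H ≤ L → (L.map (QuotientGroup.mk' H)).comap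
      (QuotientGroup.mk' H) = L := by
    intro L hL
    rw [Subgroup.comap_map_eq, hker, sup_eq_left.2 hL]
  have hM : Norm (⊤ : Subgroup (G ⧸ H)) (X.map (QuotientGroup.mk' H)) := by
    intro g _ x hx
    have : (X.map (QuotientGroup.mk' H)).Normal := hX.map _ hsurj
    exact this.conj_mem x hx g
  have hK : Norm (⊤ : Subgroup (G ⧸ H)) (⊥ : Subgroup (G ⧸ H)) := by
    intro g _ x hx
    rw [Subgroup.mem_bot] at hx ⊢
    rw [hx]
    group
  have hsM : Group.IsSolvable (X.map (QuotientGroup.mk' H)) := by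
    have h1 : Group.IsSolvable (X.map (QuotientGroup.mk' H)) :=
      Group.isSolvable_of_isSolvable_injective
        (Subgroup.subtype_injective (X.map (QuotientGroup.mk' H)))
    exact h1
  have hneM : (⊥ : Subgroup (G ⧸ H)) ≠ X.map (QuotientGroup.mk' H) := by
    intro h
    apply hne
    rw [← hcm X hHX, ← h, MonoidHom.comap_bot, hker]
  obtain ⟨M1, r, h1M, hc⟩ := exists_chief (T := X.map (QuotientGroup.mk' H))
    (G := (⊤ : Subgroup (G ⧸ H))) bot_le hneM le_top le_rfl hM hK hsM
  have hHN : H ≤ M1.comap (QuotientGroup.mk' H) := by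
    intro h hh
    rw [Subgroup.mem_comap]
    have : (QuotientGroup.mk' H) h = 1 := by
      rw [← MonoidHom.mem_ker, hker]
      exact hh
    rw [this]
    exact M1.one_mem
  have hmem : ∀ x : G, (QuotientGroup.mk' H) x = 1 ↔ x ∈ H := by
    intro x
    rw [← MonoidHom.mem_ker, hker]
  refine ⟨M1.comap (QuotientGroup.mk' H), r, ?_, hHN, ?_, ?_, hc.prime, ?_, ?_, ?_⟩
  · refine ⟨fun x hx g => ?_⟩
    rw [Subgroup.mem_comap] at hx ⊢
    rw [map_mul, map_mul, map_inv]
    exact hc.norm _ (Subgroup.mem_top _) _ hx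
  · rw [← hcm X hHX]
    exact Subgroup.comap_mono h1M
  · intro h
    apply hc.ne
    have h2 : M1 = (M1.comap (QuotientGroup.mk' H)).map (QuotientGroup.mk' H) := by
      rw [Subgroup.map_comap_eq_self_of_surjective hsurj]
    rw [h2, ← h, eq_comm, eq_bot_iff]
    rintro y ⟨x, hx, rfl⟩
    rw [Subgroup.mem_bot]
    exact (hmem x).2 hx
  · intro x hx y hy
    rw [← hmem, map_mul, map_mul, map_mul, map_inv, map_inv]
    exact Subgroup.mem_bot.1 (hc.comm _ hx _ hy)
  · intro x hx
    rw [← hmem, map_pow]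
    exact Subgroup.mem_bot.1 (hc.pow _ hx)
  · intro L hL hHL hLN
    have h1 := hc.min (L.map (QuotientGroup.mk' H)) bot_le (by
      rw [Subgroup.map_le_iff_le_comap]
      exact hLN) (by
      intro g _ x hx
      have : (L.map (QuotientGroup.mk' H)).Normal := hL.map _ hsurj
      exact this.conj_mem x hx g)
    rcases h1 with h1 | h1
    · left
      rw [← hcm L hHL, h1, MonoidHom.comap_bot, hker]
    · right
      rw [← hcm L hHL, h1]

section Rad

variable {k : Type} [Field k] {G : Type} [Group G] [Finite G] {H : Subgroup G}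
  {F : MonoidAlgebra k G}

/-- An element supported on `H` commutes with everything which commutes with `H`. -/
theorem comm_of_supp {a v : MonoidAlgebra k G} (ha : ∀ g, g ∉ H → a.coeff g = 0)
    (hv : ∀ h ∈ H, el k h * v = v * el k h) : a * v = v * a := by
  have hG : Fintype G := Fintype.ofFinite G
  have e : a = ∑ g : G, a.coeff g • el k g := by
    ext g
    rw [MonoidAlgebra.coeff_sum, Finsupp.finsetSum_apply, Finset.sum_eq_single g]
    · rw [MonoidAlgebra.coeff_smul, Finsupp.smul_apply, el_coeff, if_pos rfl, smul_eq_mul, mul_one]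
    · intro y _ hy
      rw [MonoidAlgebra.coeff_smul, Finsupp.smul_apply, el_coeff, if_neg hy, smul_eq_mul, mul_zero]
    · intro h
      exact absurd (Finset.mem_univ g) h
  rw [e, Finset.sum_mul, Finset.mul_sum]
  refine Finset.sum_congr rfl fun g _ => ?_
  by_cases hg : g ∈ H
  · rw [smul_mul_assoc, mul_smul_comm, hv g hg]
  · rw [ha g hg, zero_smul, zero_mul, mul_zero]

open Pool.Agent.Helper28.ST

/-- Commuting with a unit of another coset does not depend on the choice of the unit. -/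
theorem comm_indep (hH : H.Normal) {x y : G} {u u' w w' v v' : MonoidAlgebra k G}
    (hu : UC H F x u u') (hw : UC H F x w w') (hv : UC H F y v v') (h : w * v = v * w) :
    u * v = v * u := by
  have h1 : (u * w') * v = v * (u * w') := by
    apply comm_of_supp (H := H)
    · intro g hg
      apply (UC.prod hH hu (UC.inv hw)).supp
      rwa [mul_inv_cancel, inv_one, mul_one]
    · exact hv.com
  have e : u = (u * w') * w := by
    rw [mul_assoc, hw.mul', UC.uF hu]
  rw [e, mul_assoc, h, ← mul_assoc, h1, mul_assoc]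

/-- Inverses. -/
theorem comm_inv {x y : G} {u u' v v' : MonoidAlgebra k G}
    (hu : UC H F x u u') (hv : UC H F y v v') (h : u * v = v * u) : u' * v = v * u' := by
  calc u' * v = u' * (v * F) := by rw [UC.uF hv]
    _ = u' * (v * u) * u' := by rw [← hu.mul]; noncomm_ring
    _ = (u' * u) * v * u' := by rw [← h]; noncomm_ring
    _ = v * u' := by rw [hu.mul', hv.left]

end Rad

open Pool.Agent.Helper28.ST

theorem exists_rad {k : Type} [Field k] {G : Type} [Group G] [Finite G] {H N : Subgroup G}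
    (hH : H.Normal) (hN : N.Normal) (hHN : H ≤ N) (F : MonoidAlgebra k G) (hFF : F * F = F)
    (hFs : ∀ g, g ∉ H → F.coeff g = 0) (hFN : ∀ n ∈ N, el k n * F = F * el k n)
    (hsw : ∀ g, cj g F = F ∨ cj g F = inv' F)
    (hU : ∀ x ∈ N, ∃ u u', UC H F x u u') :
    ∃ L : Subgroup G, L.Normal ∧ H ≤ L ∧ L ≤ N ∧ ∀ x, x ∈ L ↔ x ∈ N ∧
      ∀ y ∈ N, ∀ u u' v v', UC H F x u u' → UC H F y v v' → u * v = v * u := by
  have hH0 : ∀ h ∈ H, ∀ u u' v v' y, UC H F h u u' → UC H F y v v' → u * v = v * u := by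
    intro h hh u u' v v' y hu hv
    apply comm_of_supp (H := H)
    · intro g hg
      apply hu.supp
      intro h1
      apply hg
      have h2 := H.mul_mem h1 hh
      rwa [inv_mul_cancel_right] at h2
    · exact hv.com
  let L : Subgroup G :=
    { carrier := {x | x ∈ N ∧
        ∀ y ∈ N, ∀ u u' v v', UC H F x u u' → UC H F y v v' → u * v = v * u}
      one_mem' := ⟨N.one_mem, fun y _ u u' v v' hu hv => hH0 1 H.one_mem u u' v v' y hu hv⟩
      mul_mem' := by
        rintro x1 x2 ⟨h1, hx1⟩ ⟨h2, hx2⟩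
        refine ⟨N.mul_mem h1 h2, fun y hy u u' v v' hu hv => ?_⟩
        obtain ⟨u1, u1', hu1⟩ := hU x1 h1
        obtain ⟨u2, u2', hu2⟩ := hU x2 h2
        apply comm_indep hH hu (UC.prod hH hu1 hu2) hv
        rw [mul_assoc, hx2 y hy _ _ _ _ hu2 hv, ← mul_assoc, hx1 y hy _ _ _ _ hu1 hv, mul_assoc]
      inv_mem' := by
        rintro x ⟨h, hx⟩
        refine ⟨N.inv_mem h, fun y hy u u' v v' hu hv => ?_⟩
        obtain ⟨w, w', hw⟩ := hU x h
        exact comm_indep hH hu (UC.inv hw) hv (comm_inv hw hv (hx y hy _ _ _ _ hw hv)) }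
  have hL : ∀ x, x ∈ L ↔ x ∈ N ∧
      ∀ y ∈ N, ∀ u u' v v', UC H F x u u' → UC H F y v v' → u * v = v * u := fun x => Iff.rfl
  refine ⟨L, ⟨fun x hx g => ?_⟩, fun h hh => ?_, fun x hx => hx.1, hL⟩
  · rw [hL] at hx ⊢
    refine ⟨hN.conj_mem x hx.1 g, fun y hy u u' v v' hu hv => ?_⟩
    have hy' : g⁻¹ * y * g ∈ N := by
      have := hN.conj_mem y hy g⁻¹
      rwa [inv_inv] at this
    have e1 : g⁻¹ * (g * x * g⁻¹) * g⁻¹⁻¹ = x := by group
    have e2 : g⁻¹ * y * g⁻¹⁻¹ = g⁻¹ * y * g := by group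
    have h1 := UC.conj hH hu g⁻¹
    have h2 := UC.conj hH hv g⁻¹
    rw [e1] at h1
    rw [e2] at h2
    rcases hsw g⁻¹ with h | h
    · rw [h] at h1 h2
      have h3 := hx.2 _ hy' _ _ _ _ h1 h2
      rw [← cj_mul, ← cj_mul] at h3
      exact cj_inj _ h3
    · rw [h] at h1 h2
      have h3 := UC.star hH h1
      have h4 := UC.star hH h2
      rw [inv'_inv'] at h3 h4
      have h5 := comm_inv h3 h4 (hx.2 _ hy' _ _ _ _ h3 h4)
      have h6 := hx.2 _ hy' _ _ _ _ h3 h4
      -- `u` and `v` commute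
      have h7 : u' * v' = v' * u' := by
        rw [← inv'_mul, ← inv'_mul, ← cj_mul, ← cj_mul] at h6
        have h8 := congrArg inv' h6
        rw [inv'_inv', inv'_inv'] at h8
        exact (cj_inj _ h8).symm
      have h8 := comm_inv (UC.inv hu) (UC.inv hv) h7
      exact (comm_inv (UC.inv hv) hu h8.symm).symm
  · rw [hL]
    exact ⟨hHN hh, fun y _ u u' v v' hu hv => hH0 h hh u u' v v' y hu hv⟩

end Pool.Agent.Helper44.ST
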